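import Pool.Agent.Run7.h745.Defs

/-!
# Finite group actions with the Rokhlin property and the weak tracial Rokhlin property

Tracial states, 2-quasitraces, Cuntz subequivalence of matrices and the radius of comparison
`radComp` are defined in `Pool.Agent.Run7.h745.Defs`.
-/

set_option autoImplicit false

noncomputable section

namespace Run7.h745.RV

open Filter Topology Matrix

/-- `A` is stably finite: the isometries of the matrix algebras over `A` are unitary. -/
def StablyFinite (A : Type) [CStarAlgebra A] : Prop :=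
  ∀ (n : ℕ) (v : Matrix (Fin n) (Fin n) A), vᴴ * v = 1 → v * vᴴ = 1

/-- An action of the group `G` on `A`: *-endomorphisms `α_g` with `α_1 = id`, `α_{gh} = α_g α_h`
(hence automorphisms). -/
structure Action (G A : Type) [Group G] [CStarAlgebra A] where
  hom : G → (A →⋆ₐ[ℂ] A)
  one : ∀ a, hom 1 a = a
  mul : ∀ g h a, hom (g * h) a = hom g (hom h a)

/-- the value `α_g(a)` -/
def Action.ap {G A : Type} [Group G] [CStarAlgebra A] (α : Action G A) (g : G) (a : A) : A :=
  α.hom g a

section
variable {G A : Type} [CStarAlgebra A]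

/-- the elements `e g` are mutually orthogonal -/
def Orthogonal (e : G → A) : Prop := ∀ g h, g ≠ h → e g * e h = 0

/-- `‖α_g (e_h) - e_{gh}‖ < ε` -/
def AlmostEquivariant [Group G] (α : Action G A) (e : G → A) (ε : ℝ) : Prop :=
  ∀ g h, ‖α.ap g (e h) - e (g * h)‖ < ε

/-- `‖e_g a - a e_g‖ < ε` for `a ∈ F` -/
def AlmostCentral (F : Finset A) (e : G → A) (ε : ℝ) : Prop :=
  ∀ g, ∀ a ∈ F, ‖e g * a - a * e g‖ < ε

/-- The Rokhlin property: for every finite set `F` and every `ε > 0` there are mutually orthogonal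
projections `e g` with sum `1`, `‖α_g (e_h) - e_{gh}‖ < ε` and `‖e_g a - a e_g‖ < ε` for `a ∈ F`. -/
def RokhlinProperty [Group G] [Fintype G] (α : Action G A) : Prop :=
  ∀ (F : Finset A) (ε : ℝ), 0 < ε → ∃ e : G → A, (∀ g, IsStarProjection (e g)) ∧ Orthogonal e ∧
    ∑ g, e g = 1 ∧ AlmostEquivariant α e ε ∧ AlmostCentral F e ε

/-- `x` is positive -/
def Pos (x : A) : Prop := ∃ y : A, x = star y * y

/-- Cuntz subequivalence `a ≾ b` of elements of `A`: there are `v k` with `v k * b * (v k)* → a`. -/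
def Below (a b : A) : Prop :=
  ∃ v : ℕ → A, Tendsto (fun k => v k * b * star (v k)) atTop (𝓝 a)

/-- The conditions on the sum `f`: `1 - f ≾ x` and `‖f x f‖ > 1 - ε` -/
def Large (f x : A) (ε : ℝ) : Prop := Below (1 - f) x ∧ 1 - ε < ‖f * x * f‖

/-- The weak tracial Rokhlin property: for every finite set `F`, every `ε > 0` and every positive
`x` of norm `1` there are mutually orthogonal positive contractions `f g`, with sum `f`, such that
`‖α_g (f_h) - f_{gh}‖ < ε`, `‖f_g a - a f_g‖ < ε` for `a ∈ F`, `1 - f ≾ x` and `‖f x f‖ > 1 - ε`. -/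
def WeakTracialRokhlinProperty [Group G] [Fintype G] (α : Action G A) : Prop :=
  ∀ (F : Finset A) (ε : ℝ), 0 < ε → ∀ x : A, Pos x → ‖x‖ = 1 → ∃ f : G → A,
    (∀ g, Pos (f g) ∧ ‖f g‖ ≤ 1) ∧ Orthogonal f ∧ AlmostEquivariant α f ε ∧
    AlmostCentral F f ε ∧ Large (∑ g, f g) x ε

/-- all tracial states are invariant under the action -/
def InvariantTraces [Group G] (α : Action G A) : Prop :=
  ∀ (τ : TracialState A) (g : G) (a : A), τ.val (α.ap g a) = τ.val a

/-- The Rokhlin property implies the weak tracial Rokhlin property (with `f = 1`). -/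
theorem RokhlinProperty.weak [Group G] [Fintype G] {α : Action G A}
    (h : RokhlinProperty α) : WeakTracialRokhlinProperty α := by
  intro F ε hε x _ hx1
  obtain ⟨e, h1, h2, h3, h4, h5⟩ := h F ε hε
  refine ⟨e, fun g => ⟨⟨e g, ?_⟩, ?_⟩, h2, h4, h5, ⟨fun _ => 0, ?_⟩, ?_⟩
  · rw [(h1 g).isSelfAdjoint.star_eq, (h1 g).isIdempotentElem.eq]
  · have h6 : ‖e g‖ = ‖e g‖ * ‖e g‖ := by
      conv_lhs => rw [← (h1 g).isIdempotentElem.eq]
      conv_lhs => rw [show e g * e g = star (e g) * e g by rw [(h1 g).isSelfAdjoint.star_eq]]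
      exact CStarRing.norm_star_mul_self
    have h7 := norm_nonneg (e g)
    by_contra h8
    push Not at h8
    nlinarith
  · rw [h3, sub_self]
    simp
  · rw [h3, one_mul, mul_one, hx1]
    linarith

end

end Run7.h745.RV
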