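import Pool.Agent.Run7.h745.RV.Iface

/-!
# Piece NC
-/

set_option autoImplicit false

noncomputable section

namespace Run7.h745.RV

open Filter Topology Matrix Pool.Agent.H188R3 Pool.Agent.Helper133.BT Pool.Agent.Helper133.BU
open Run7.h745
open scoped ENNReal NNReal

/-- enumeration of the rows of the label `i + 1` -/
lemma rows_enum (i : ℕ) : ∀ m, i < m → ∃ w : ℕ → I m, (∀ r, lab m (w r) = i + 1) ∧
    ∀ p, lab m p = i + 1 → ∃ r < 2 ^ i, w r = p := by
  intro m hm
  induction m, (Nat.succ_le_of_lt hm) using Nat.le_induction with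
  | base =>
    let e : I i ≃ Fin (2 ^ i) := Fintype.equivFinOfCardEq (card_I i)
    refine ⟨fun r => newR (e.symm ⟨r % 2 ^ i, Nat.mod_lt _ (by positivity)⟩), fun r => rfl, ?_⟩
    intro p hp
    rcases row_cases p with ⟨p', rfl⟩ | ⟨p', rfl⟩
    · rw [lab_old] at hp
      have := lab_le p'
      omega
    · refine ⟨e p', (e p').2, ?_⟩
      have h1 : (⟨(e p' : ℕ) % 2 ^ i, Nat.mod_lt _ (by positivity)⟩ : Fin (2 ^ i)) = e p' :=
        Fin.ext (Nat.mod_eq_of_lt (e p').2)
      show newR (e.symm ⟨(e p' : ℕ) % 2 ^ i, _⟩) = newR p'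
      rw [h1, Equiv.symm_apply_apply]
  | succ m hm' ih =>
    obtain ⟨w, h1, h2⟩ := ih (Nat.lt_of_succ_le hm')
    refine ⟨fun r => oldR (w r), fun r => by rw [lab_old, h1], fun p hp => ?_⟩
    rcases row_cases p with ⟨p', rfl⟩ | ⟨p', rfl⟩
    · rw [lab_old] at hp
      obtain ⟨r, hr, h3⟩ := h2 p' hp
      exact ⟨r, hr, by rw [← h3]⟩
    · rw [lab_new] at hp
      have : i + 1 ≤ m := hm'
      omega

/-- the first row of the image of `e0` -/
lemma trans_e0_at {n m : ℕ} (h : n ≤ m) (e : E) (q : I m) :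
    ((trans φ n m (e0 n)).at e).en (r0 m) q = (if q = r0 m then 1 else 0) ∧
    ((trans φ n m (e0 n)).at e).en q (r0 m) = (if q = r0 m then 1 else 0) := by
  induction m, h using Nat.le_induction generalizing e with
  | base =>
    rw [trans_self]
    show (MA.unit (r0 n) (r0 n)).en (r0 n) q = _ ∧ (MA.unit (r0 n) (r0 n)).en q (r0 n) = _
    rw [MA.en_unit, MA.en_unit]
    constructor <;> simp
  | succ m hm ih =>
    rw [trans_succ φ hm, φ_at]
    rcases row_cases q with ⟨q', rfl⟩ | ⟨q', rfl⟩
    · have h1 : (oldR q' : I (m + 1)) = r0 (m + 1) ↔ q' = r0 m := by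
        constructor
        · intro hq; exact Sum.inl_injective hq
        · rintro rfl; rfl
      show (dg m _ _).en (oldR (r0 m)) (oldR q') = _ ∧ (dg m _ _).en (oldR q') (oldR (r0 m)) = _
      rw [dg_old, dg_old, (ih e q').1, (ih e q').2]
      simp only [h1, and_self]
    · have h1 : ¬ (newR q' : I (m + 1)) = r0 (m + 1) := fun hq => by cases hq
      show (dg m _ _).en (oldR (r0 m)) (newR q') = _ ∧ (dg m _ _).en (newR q') (oldR (r0 m)) = _
      rw [dg_old_new, dg_new_old, if_neg h1, and_self]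

lemma sg_r0 (m k : ℕ) : sg k (r0 m) = 1 := by
  unfold sg; rw [lab_r0, if_neg (by omega)]

/-- a point of the product of the surfaces -/
def toΩ (v : Om dm) (hv : v ∈ PP dm) : Ω := fun i => ⟨v i, hv i⟩

lemma toΩ_flp (v : Om dm) (hv : v ∈ PP dm) (k : ℕ) (h : flp dm k v ∈ PP dm) :
    toΩ (flp dm k v) h = fl k (toΩ v hv) := by
  funext i
  apply Subtype.ext
  by_cases hi : i = k
  · subst hi
    rw [fl_self]
    show flp dm i v i = -v i
    unfold flp
    rw [Function.update_self]
  · rw [fl_ne hi]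
    show flp dm k v i = v i
    unfold flp
    rw [Function.update_of_ne hi]

/-- equivariant functions with the right labels have a common zero -/
theorem common_zero (m : ℕ) (g : I m → C(Ω, ℂ))
    (hg : ∀ p k ω, g p (fl k ω) = sg k p * g p ω) : ∃ ω : Ω, ∀ p, p ≠ r0 m → g p ω = 0 := by
  classical
  choose! w hw1 hw2 using fun i (hi : i < m) => rows_enum i m hi
  let F : ℕ → ℕ → Ω → ℝ := fun i r ω =>
    if r % 2 = 0 then (g (w i (r / 2)) ω).re else (g (w i (r / 2)) ω).im
  have hFc : ∀ i r, Continuous (F i r) := by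
    intro i r
    show Continuous fun ω => if r % 2 = 0 then (g (w i (r / 2)) ω).re else (g (w i (r / 2)) ω).im
    split_ifs
    · exact Complex.continuous_re.comp (g _).continuous
    · exact Complex.continuous_im.comp (g _).continuous
  obtain ⟨v, hv, h0⟩ := triangular dm (fun i => by unfold dm; have : 0 < 2 ^ i := by positivity
                                                   omega) m
    (fun i _ k => if i = k then 1 else 0) (fun i _ => if_pos rfl)
    (fun i _ k h => if_neg h.ne) (fun i r v => if hv : v ∈ PP dm then F i r (toΩ v hv) else 0)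
    (by
      intro i r
      rw [continuousOn_iff_continuous_domRestrict]
      have h1 : (PP dm).domRestrict (fun v => if hv : v ∈ PP dm then F i r (toΩ v hv) else 0) =
          fun v : PP dm => F i r (toΩ v.1 v.2) := by
        funext v
        rw [Set.domRestrict_apply, dif_pos v.2]
      rw [h1]
      refine (hFc i r).comp (continuous_pi fun k => ?_)
      exact Continuous.subtype_mk ((continuous_apply k).comp continuous_subtype_val) _)
    (by
      intro i hi r hr k hk v hv
      show (if hv : flp dm k v ∈ PP dm then F i r (toΩ (flp dm k v) hv) else 0) =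
        sgn (if i = k then 1 else 0) * (if hv : v ∈ PP dm then F i r (toΩ v hv) else 0)
      rw [dif_pos hv, dif_pos (flp_mem dm k hv), toΩ_flp v hv]
      have h1 : ((sgn (if i = k then 1 else 0) : ℝ) : ℂ) = sg k (w i (r / 2)) := by
        unfold sg
        rw [hw1 i hi]
        by_cases h : i = k
        · subst h
          rw [if_pos rfl, if_pos rfl]
          simp [sgn]
        · rw [if_neg h, if_neg (by omega)]
          simp [sgn]
      show (if r % 2 = 0 then (g (w i (r / 2)) (fl k (toΩ v hv))).re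
          else (g (w i (r / 2)) (fl k (toΩ v hv))).im) = _ *
        (if r % 2 = 0 then (g (w i (r / 2)) (toΩ v hv)).re
          else (g (w i (r / 2)) (toΩ v hv)).im)
      rw [hg, ← h1]
      by_cases hr2 : r % 2 = 0
      · rw [if_pos hr2, if_pos hr2, Complex.re_ofReal_mul]
      · rw [if_neg hr2, if_neg hr2, Complex.im_ofReal_mul])
  refine ⟨toΩ v hv, fun p hp => ?_⟩
  obtain ⟨i, hi⟩ : ∃ i, lab m p = i + 1 :=
    Nat.exists_eq_succ_of_ne_zero fun h => hp (lab_eq_zero h)
  have him : i < m := by have := lab_le p; omega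
  obtain ⟨r, hr, hrp⟩ := hw2 i him p hi
  have e1 := h0 i him (2 * r) (by unfold dm; omega)
  have e2 := h0 i him (2 * r + 1) (by unfold dm; omega)
  rw [dif_pos hv] at e1 e2
  have e1' : (if (2 * r) % 2 = 0 then (g (w i (2 * r / 2)) (toΩ v hv)).re
    else (g (w i (2 * r / 2)) (toΩ v hv)).im) = 0 := e1
  have e2' : (if (2 * r + 1) % 2 = 0 then (g (w i ((2 * r + 1) / 2)) (toΩ v hv)).re
    else (g (w i ((2 * r + 1) / 2)) (toΩ v hv)).im) = 0 := e2
  rw [if_pos (by omega), show 2 * r / 2 = r by omega, hrp] at e1'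
  rw [if_neg (by omega), show (2 * r + 1) / 2 = r by omega, hrp] at e2'
  exact Complex.ext e1' e2'

theorem t_NC : S_NC := by
  intro L _ j h n hc
  obtain ⟨v, hv⟩ := hc
  set x : L := j n (e0 n) with hx
  -- an element `w` with `w (1 - x) w*` near `x`
  have h1 : Tendsto (fun k => v k 0 0 * (1 - x) * star (v k 0 0)) atTop (𝓝 x) := by
    have h2 := (continuous_apply (0 : Fin 1)).tendsto _ |>.comp
      ((continuous_apply (0 : Fin 1)).tendsto _ |>.comp hv)
    refine h2.congr fun k => ?_
    show (v k * om (1 - x) * (v k)ᴴ) 0 0 = _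
    rw [Matrix.mul_apply, Fin.sum_univ_one, Matrix.mul_apply, Fin.sum_univ_one,
      Matrix.conjTranspose_apply]
    rfl
  obtain ⟨k, hk⟩ := ((Metric.tendsto_nhds.1 h1) 1 one_pos).exists
  -- approximation
  obtain ⟨δ, hδ, hδ'⟩ : ∃ δ > 0, ∀ w' : L, ‖v k 0 0 - w'‖ < δ →
      ‖w' * (1 - x) * star w' - x‖ < 1 := by
    have hcont : Continuous fun w' : L => w' * (1 - x) * star w' - x := by fun_prop
    have h3 : ∀ᶠ w' in 𝓝 (v k 0 0), ‖w' * (1 - x) * star w' - x‖ < 1 := by
      refine (hcont.norm.tendsto (v k 0 0)).eventually_lt tendsto_const_nhds ?_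
      rwa [dist_eq_norm] at hk
    obtain ⟨δ, hδ, h4⟩ := Metric.eventually_nhds_iff.1 h3
    exact ⟨δ, hδ, fun w' hw' => h4 (by rwa [dist_comm, dist_eq_norm])⟩
  obtain ⟨n', u', hu'⟩ := h.dense (v k 0 0) δ hδ
  obtain ⟨m, hm⟩ : ∃ m, m = max n n' := ⟨_, rfl⟩
  have hnm : n ≤ m := hm ▸ le_max_left _ _
  have hnm' : n' ≤ m := hm ▸ le_max_right _ _
  have hu := hδ' _ hu'
  set u : A m := trans φ n' m u' with hu_def
  set t : A m := trans φ n m (e0 n) with ht
  have h5 : j m (u * (1 - t) * star u - t) = j n' u' * (1 - x) * star (j n' u') - x := by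
    rw [map_sub, map_mul, map_mul, map_star, map_sub, map_one, ht, comp_trans j h.comp hnm, hu_def,
      comp_trans j h.comp hnm']
  rw [← h5, norm_map_inj (j m) (h.inj m)] at hu
  -- the common zero
  obtain ⟨ω, hω⟩ := common_zero m (fun p => ⟨fun ω => (u.at (true, ω)).en (r0 m) p,
      (continuous_en _ _).comp (u.at_continuous.comp (continuous_const.prodMk continuous_id))⟩)
    (fun p k ω => by
      show (u.at (true, fl k ω)).en (r0 m) p = sg k p * (u.at (true, ω)).en (r0 m) p
      rw [u.par, sg_r0, one_mul])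
  have hω' : ∀ p, p ≠ r0 m → (u.at (true, ω)).en (r0 m) p = 0 := hω
  have h6 : ((u * (1 - t) * star u - t).at (true, ω)).en (r0 m) (r0 m) = -1 := by
    rw [A.at_sub, MA.en_sub, A.at_mul, A.at_mul, MA.en_mul]
    have h7 : ∀ p, ((u.at (true, ω)) * ((1 - t).at (true, ω))).en (r0 m) p = 0 := by
      intro p
      rw [MA.en_mul]
      refine Finset.sum_eq_zero fun q _ => ?_
      by_cases hq : q = r0 m
      · subst hq
        rw [A.at_sub, A.at_one, MA.en_sub, MA.en_one, (trans_e0_at hnm (true, ω) p).1]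
        have : (if r0 m = p then (1 : ℂ) else 0) - (if p = r0 m then 1 else 0) = 0 := by
          by_cases hp : p = r0 m
          · rw [if_pos hp.symm, if_pos hp, sub_self]
          · rw [if_neg (Ne.symm hp), if_neg hp, sub_self]
        rw [this, mul_zero]
      · rw [hω' q hq, zero_mul]
    rw [Finset.sum_eq_zero fun p _ => by rw [h7 p, zero_mul], (trans_e0_at hnm (true, ω) (r0 m)).1,
      if_pos rfl, zero_sub]
  have h8 : ‖((u * (1 - t) * star u - t).at (true, ω)).en (r0 m) (r0 m)‖ < 1 :=
    (Run7.h973.AH.norm_en_le _ _ _).trans_lt ((A.norm_at_le _ _).trans_lt hu)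
  rw [h6, norm_neg, norm_one] at h8
  exact lt_irrefl _ h8

end Run7.h745.RV
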