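import Pool.Agent.Run7.h745.RV.QTV
import Pool.Agent.Run7.h745.RV.NC

/-!
# Piece RC
-/

set_option autoImplicit false

noncomputable section

namespace Run7.h745.RV

open Filter Topology Matrix Pool.Agent.H188R3 Pool.Agent.Helper133.BT Pool.Agent.Helper133.BU
open Run7.h745
open scoped ENNReal NNReal

section
variable {L : Type} [CStarAlgebra L]

lemma proj_isPos {n : ℕ} {p : Matrix (Fin n) (Fin n) L} (h1 : pᴴ = p) (h2 : p * p = p) :
    IsPos p := ⟨p, by rw [h1, h2]⟩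

lemma proot_proj {n : ℕ} {p : Matrix (Fin n) (Fin n) L} (h1 : pᴴ = p) (h2 : p * p = p) (k : ℕ) :
    proot p k = p := by
  have hp := proj_isPos h1 h2
  have h3 : p ^ (k + 1) = p := by
    induction k with
    | zero => rw [zero_add, pow_one]
    | succ k ih => rw [pow_succ, ih, h2]
  rw [proot_eq p hp k]
  exact (root_eq p p k hp h3).symm

lemma dimFn_proj {n : ℕ} {p : Matrix (Fin n) (Fin n) L} (h1 : pᴴ = p) (h2 : p * p = p) (τ : QT L) :
    τ.dimFn p = ENNReal.ofReal (τ.val n p).re := by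
  unfold QT.dimFn
  simp only [proot_proj h1 h2]
  exact liminf_const _

end

lemma e0_proj (n : ℕ) : star (e0 n) = e0 n ∧ e0 n * e0 n = e0 n := by
  refine ⟨isSelfAdjoint_ep _, ?_⟩
  apply A.ext; intro e
  show MA.unit (r0 n) (r0 n) * MA.unit (r0 n) (r0 n) = MA.unit (r0 n) (r0 n)
  rw [MA.unit_mul, if_pos rfl]

theorem t_RC : S_RC := by
  intro hQ hN L _ j h
  unfold radComp
  refine le_iInf₂ fun r hr => ?_
  by_contra hlt
  push Not at hlt
  have hx := e0_proj 2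
  have hx1 : star (j 2 (e0 2)) = j 2 (e0 2) := by rw [← map_star, hx.1]
  have hx2 : j 2 (e0 2) * j 2 (e0 2) = j 2 (e0 2) := by rw [← map_mul, hx.2]
  have e1 : (om (j 2 (e0 2)))ᴴ = om (j 2 (e0 2)) := by
    ext a b; exact hx1
  have e2 : om (j 2 (e0 2)) * om (j 2 (e0 2)) = om (j 2 (e0 2)) := by
    ext a b
    rw [Matrix.mul_apply, Fin.sum_univ_one]
    exact hx2
  have e3 : (om (1 - j 2 (e0 2)))ᴴ = om (1 - j 2 (e0 2)) := by
    ext a b
    show star (1 - j 2 (e0 2)) = 1 - j 2 (e0 2)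
    rw [star_sub, star_one, hx1]
  have e4 : om (1 - j 2 (e0 2)) * om (1 - j 2 (e0 2)) = om (1 - j 2 (e0 2)) := by
    ext a b
    rw [Matrix.mul_apply, Fin.sum_univ_one]
    show (1 - j 2 (e0 2)) * (1 - j 2 (e0 2)) = 1 - j 2 (e0 2)
    rw [mul_sub, mul_one, sub_mul, one_mul, hx2, sub_self, sub_zero]
  refine hN L j h 2 (hr 1 _ _ (proj_isPos e1 e2) (proj_isPos e3 e4) fun τ => ?_)
  obtain ⟨q1, q2⟩ := hQ L j h τ 2
  rw [dimFn_proj e1 e2, dimFn_proj e3 e4, q1, q2]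
  have f1 : (((1 : ℂ) / 2) ^ 2).re = 1 / 4 := by
    have : ((1 : ℂ) / 2) ^ 2 = ((1 / 4 : ℝ) : ℂ) := by push_cast; norm_num
    rw [this, Complex.ofReal_re]
  have f2 : ((1 : ℂ) - (1 / 2) ^ 2).re = 3 / 4 := by
    have : (1 : ℂ) - (1 / 2) ^ 2 = ((3 / 4 : ℝ) : ℂ) := by push_cast; norm_num
    rw [this, Complex.ofReal_re]
  rw [f1, f2]
  have hr' : (r : ℝ) < 1 / 2 := by
    have h5 : (r : ℝ≥0∞) < ((1 / 2 : ℝ≥0) : ℝ≥0∞) := by
      refine hlt.trans_le (le_of_eq ?_)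
      rw [ENNReal.coe_div two_ne_zero]
      norm_num
    have h6 := ENNReal.coe_lt_coe.1 h5
    exact_mod_cast h6
  have h7 : (r : ℝ≥0∞) = ENNReal.ofReal (r : ℝ) := (ENNReal.ofReal_coe_nnreal).symm
  rw [h7, ← ENNReal.ofReal_add (by norm_num) (NNReal.coe_nonneg r)]
  exact (ENNReal.ofReal_lt_ofReal_iff (by norm_num)).2 (by linarith)

theorem rc_pos (L : Type) [CStarAlgebra L] (j : ∀ n, A n →⋆ₐ[ℂ] L) (h : IsLim φ j) :
    0 < radComp L := lt_of_lt_of_le (by norm_num) (t_RC t_QTV t_NC L j h)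

end Run7.h745.RV
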