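import Pool.Agent.Run7.h745.RV.Defs
import Pool.Agent.Run7.h745.RV.RC

/-!
# Assembly
-/

set_option autoImplicit false

noncomputable section

namespace Run7.h745.RV

open Filter Topology Matrix Pool.Agent.H188R3
open Run7.h745
open scoped ENNReal NNReal

/-- the action of the group of order two given by an automorphism of order two -/
def act {L : Type} [CStarAlgebra L] (β : L ≃⋆ₐ[ℂ] L) (hβ : ∀ x, β (β x) = x) :
    Action (Multiplicative (ZMod 2)) L where
  hom g := if g = 1 then StarAlgHom.id ℂ L else (β : L →⋆ₐ[ℂ] L)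
  one a := by rw [if_pos rfl]; rfl
  mul g h a := by
    have h1 : ∀ g : Multiplicative (ZMod 2), g = 1 ∨ g = Multiplicative.ofAdd 1 := by decide
    have h2 : (Multiplicative.ofAdd (1 : ZMod 2)) ≠ 1 := by decide
    have h3 : (Multiplicative.ofAdd (1 : ZMod 2)) * Multiplicative.ofAdd 1 = 1 := by decide
    rcases h1 g with rfl | rfl <;> rcases h1 h with rfl | rfl
    · rw [one_mul, if_pos rfl]; rfl
    · rw [one_mul, if_neg h2, if_pos rfl]; rfl
    · rw [mul_one, if_neg h2, if_pos rfl]; rfl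
    · rw [h3, if_pos rfl, if_neg h2]
      exact (hβ a).symm

lemma act_one {L : Type} [CStarAlgebra L] (β : L ≃⋆ₐ[ℂ] L) (hβ : ∀ x, β (β x) = x) (x : L) :
    (act β hβ).ap 1 x = x := (act β hβ).one x

lemma act_gen {L : Type} [CStarAlgebra L] (β : L ≃⋆ₐ[ℂ] L) (hβ : ∀ x, β (β x) = x) (x : L) :
    (act β hβ).ap (Multiplicative.ofAdd 1) x = β x := by
  have h2 : (Multiplicative.ofAdd (1 : ZMod 2)) ≠ 1 := by decide
  show (if (Multiplicative.ofAdd (1 : ZMod 2)) = 1 then StarAlgHom.id ℂ L else (β : L →⋆ₐ[ℂ] L)) x = β x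
  rw [if_neg h2]
  rfl

theorem act_rokhlin {L : Type} [CStarAlgebra L] (β : L ≃⋆ₐ[ℂ] L) (hβ : ∀ x, β (β x) = x)
    (h : ∀ (F : Finset L) (ε : ℝ), 0 < ε → ∃ e : L, IsStarProjection e ∧ β e = 1 - e ∧
      ∀ a ∈ F, ‖e * a - a * e‖ < ε) : RokhlinProperty (act β hβ) := by
  have h1 : ∀ g : Multiplicative (ZMod 2), g = 1 ∨ g = Multiplicative.ofAdd 1 := by decide
  have h2 : (Multiplicative.ofAdd (1 : ZMod 2)) ≠ 1 := by decide
  have h3 : (Multiplicative.ofAdd (1 : ZMod 2)) * Multiplicative.ofAdd 1 = 1 := by decide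
  intro F ε hε
  obtain ⟨e, he, hβe, hc⟩ := h F ε hε
  have e1 : (if (Multiplicative.ofAdd (1 : ZMod 2)) = 1 then e else 1 - e) = 1 - e := if_neg h2
  have e2 : (if (1 : Multiplicative (ZMod 2)) = 1 then e else 1 - e) = e := if_pos rfl
  refine ⟨fun g => if g = 1 then e else 1 - e, ?_, ?_, ?_, ?_, ?_⟩
  · intro g
    rcases h1 g with rfl | rfl
    · show IsStarProjection (if (1 : Multiplicative (ZMod 2)) = 1 then e else 1 - e)
      rw [e2]; exact he
    · show IsStarProjection (if (Multiplicative.ofAdd (1 : ZMod 2)) = 1 then e else 1 - e)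
      rw [e1]; exact he.one_sub
  · intro g g' hg
    rcases h1 g with rfl | rfl <;> rcases h1 g' with rfl | rfl
    · exact absurd rfl hg
    · show (if (1 : Multiplicative (ZMod 2)) = 1 then e else 1 - e) *
        (if (Multiplicative.ofAdd (1 : ZMod 2)) = 1 then e else 1 - e) = 0
      rw [e1, e2, mul_sub, mul_one, he.isIdempotentElem.eq, sub_self]
    · show (if (Multiplicative.ofAdd (1 : ZMod 2)) = 1 then e else 1 - e) *
        (if (1 : Multiplicative (ZMod 2)) = 1 then e else 1 - e) = 0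
      rw [e1, e2, sub_mul, one_mul, he.isIdempotentElem.eq, sub_self]
    · exact absurd rfl hg
  · have h4 : (Finset.univ : Finset (Multiplicative (ZMod 2))) = {1, Multiplicative.ofAdd 1} := by
      decide
    rw [h4, Finset.sum_pair h2.symm, e1, e2, add_sub_cancel]
  · intro g g'
    rcases h1 g with rfl | rfl <;> rcases h1 g' with rfl | rfl
    · show ‖(act β hβ).ap 1 (if (1 : Multiplicative (ZMod 2)) = 1 then e else 1 - e) -
        (if (1 : Multiplicative (ZMod 2)) * 1 = 1 then e else 1 - e)‖ < ε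
      rw [act_one, one_mul, sub_self, norm_zero]; exact hε
    · show ‖(act β hβ).ap 1 (if (Multiplicative.ofAdd (1 : ZMod 2)) = 1 then e else 1 - e) -
        (if (1 : Multiplicative (ZMod 2)) * Multiplicative.ofAdd 1 = 1 then e else 1 - e)‖ < ε
      rw [act_one, one_mul, sub_self, norm_zero]; exact hε
    · show ‖(act β hβ).ap (Multiplicative.ofAdd 1)
          (if (1 : Multiplicative (ZMod 2)) = 1 then e else 1 - e) -
        (if (Multiplicative.ofAdd (1 : ZMod 2)) * 1 = 1 then e else 1 - e)‖ < ε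
      rw [act_gen, mul_one, e1, e2, hβe, sub_self, norm_zero]; exact hε
    · show ‖(act β hβ).ap (Multiplicative.ofAdd 1)
          (if (Multiplicative.ofAdd (1 : ZMod 2)) = 1 then e else 1 - e) -
        (if (Multiplicative.ofAdd (1 : ZMod 2)) * Multiplicative.ofAdd 1 = 1 then e else 1 - e)‖ < ε
      rw [act_gen, h3, e1, e2, map_sub, map_one, hβe, sub_sub_cancel, sub_self, norm_zero]
      exact hε
  · intro g a ha
    rcases h1 g with rfl | rfl
    · show ‖(if (1 : Multiplicative (ZMod 2)) = 1 then e else 1 - e) * a -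
        a * (if (1 : Multiplicative (ZMod 2)) = 1 then e else 1 - e)‖ < ε
      rw [e2]; exact hc a ha
    · show ‖(if (Multiplicative.ofAdd (1 : ZMod 2)) = 1 then e else 1 - e) * a -
        a * (if (Multiplicative.ofAdd (1 : ZMod 2)) = 1 then e else 1 - e)‖ < ε
      rw [e1]
      have h5 : (1 - e) * a - a * (1 - e) = -(e * a - a * e) := by noncomm_ring
      rw [h5, norm_neg]
      exact hc a ha

theorem stablyFinite_of (L : Type) [CStarAlgebra L] [h : IsStablyFiniteRing L] : StablyFinite L := by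
  intro n v hv
  exact mul_eq_one_symm hv

theorem exists_system (hSIMPLE : S_SIMPLE) (hSEP : S_SEP) (hSF : S_SF) (hUT : S_UT) (hTRP : S_TRP)
    (hUNIQ : S_UNIQ) (hEX : S_EX) (hACT : S_ACT) :
    ∃ (L : Type) (_ : CStarAlgebra L) (α : Action (Multiplicative (ZMod 2)) L),
      IsSimpleRing L ∧ TopologicalSpace.SeparableSpace L ∧ StablyFinite L ∧
      (∃! _τ : TracialState L, True) ∧ 0 < radComp L ∧ RokhlinProperty α := by
  obtain ⟨L, hL, j, h⟩ := exists_lim φ φ_inj
  obtain ⟨β, hβ, h1⟩ := hACT L j h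
  obtain ⟨τ⟩ := hEX L j h
  have := hSF L j h
  exact ⟨L, hL, act β hβ, hSIMPLE L j h, hSEP L j h, stablyFinite_of L,
    ⟨τ, trivial, fun σ _ => hUNIQ hUT hTRP L j h σ τ⟩, rc_pos L j h, act_rokhlin β hβ h1⟩

end Run7.h745.RV
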