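import Pool.Agent.Run7.h745.RV.Sys
import Pool.Agent.Run7.h745.Root
import Pool.Agent.Run7.h803.AH.TS
import Pool.Agent.Run7.h973.AH.AVPT

/-!
# MP_953b63_an, MP_81d4f5_an: interface of the pieces

GOAL: the limit `L` of the system `φ` (file `Sys.lean`) is a simple separable unital stably finite
algebra with exactly one tracial state, `rc L ≥ 1/2`, and the change of the two components gives an
action of `ℤ/2` with the Rokhlin property.

Each piece is a `def S_... : Prop`.  To prove a piece write a file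
`Pool/Agent/Run7/<you>/RV/<PIECE>.lean` which imports this file, with
`theorem t_... : (hypotheses S_..) → S_...`.
-/

set_option autoImplicit false

noncomputable section

namespace Run7.h745.RV

open Filter Topology Matrix Pool.Agent.H188R3 Pool.Agent.Helper133.BT Pool.Agent.Helper133.BU
open Run7.h745
open scoped ENNReal NNReal

/-! ### Notation -/

/-- the centre-valued trace of an element of level `n` (normalised; the lemmas `ntr_add`, `ntr_smul`,
`ntr_norm`, ... are in `Pool/Agent/Run7/h973/AH/AVPT.lean`) -/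
def tn {n : ℕ} (a : A n) (e : E) : ℂ := AH.ntr (a.at e)

/-- the constant matrix `x`; the entries with different labels are `0` -/
def cs {n : ℕ} (x : MA (I n) ℂ) (hx : ∀ p q, lab n p ≠ lab n q → x.en p q = 0) : A n :=
  A.mk (ContinuousMap.const _ x) (fun _ _ _ _ => rfl) (fun _ i _ p q => by
    show x.en p q = sg i p * sg i q * x.en p q
    by_cases h : lab n p = lab n q
    · have h1 : sg i p = sg i q := by unfold sg; rw [h]
      rw [h1, sg_mul, one_mul]
    · rw [hx p q h, mul_zero])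

lemma cs_at {n : ℕ} (x : MA (I n) ℂ) (hx) (e : E) : (cs x hx).at e = x := rfl

/-- the projection on the row `p` -/
def ep {n : ℕ} (p : I n) : A n := cs (MA.unit p p) fun a b h => by
  rw [MA.en_unit, if_neg]
  rintro ⟨rfl, rfl⟩
  exact h rfl

/-- the projection on the first row (trivial line bundle) -/
def e0 (n : ℕ) : A n := ep (r0 n)

/-- the unit of the component `b` -/
def zc (n : ℕ) (b : Bool) : A n :=
  A.mk ⟨fun e => if e.1 = b then 1 else 0,
      (continuous_of_discreteTopology (f := fun b' : Bool => if b' = b then (1 : MA (I n) ℂ) else 0)).comp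
        continuous_fst⟩
    (fun _ _ _ _ => rfl) (fun h i ω p q => by
      show (if h = b then (1 : MA (I n) ℂ) else 0).en p q =
        sg i p * sg i q * (if h = b then (1 : MA (I n) ℂ) else 0).en p q
      split_ifs
      · rw [MA.en_one]
        split_ifs with hpq
        · rw [hpq, sg_mul, one_mul]
        · rw [mul_zero]
      · rw [MA.en_zero, mul_zero])

lemma zc_at (n : ℕ) (b : Bool) (e : E) : (zc n b).at e = if e.1 = b then 1 else 0 := rfl

/-- the change of the two components -/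
def sw (n : ℕ) : A n →⋆ₐ[ℂ] A n where
  toFun f := A.mk ⟨fun e => f.at (!e.1, e.2), f.at_continuous.comp
      (((continuous_of_discreteTopology (f := Bool.not)).comp continuous_fst).prodMk continuous_snd)⟩
    (fun h _ _ hω => f.dep (!h) hω) (fun h i ω p q => f.par (!h) i ω p q)
  map_one' := rfl
  map_mul' _ _ := rfl
  map_zero' := rfl
  map_add' _ _ := rfl
  commutes' _ := rfl
  map_star' _ := rfl

lemma sw_at {n : ℕ} (f : A n) (e : E) : (sw n f).at e = f.at (!e.1, e.2) := rfl

/-- a `1 × 1` matrix -/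
def om {L : Type} (x : L) : Matrix (Fin 1) (Fin 1) L := Matrix.of fun _ _ => x

/-! ### Pieces SIMPLE, SEP, SF -/

/-- SIMPLE.  `IsLim.simple`: let `x ≠ 0` in `A n`, `x.at (h, ω) ≠ 0` on an open set of `ω`; it
contains the `i`-th term of the dense sequence; `xs m` is this term for `m = Nat.pair i k ≥ n` with
`k` large.  The old block of `trans φ n m x` at `(h, xs m)` is `x.at (h, xs m) ≠ 0`, so
`trans φ n (m + 1) x` has a constant nonzero entry (with equal row labels `m + 1`) in the component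
`!h`, and `trans φ n (m + 2) x` has in both components an entry which does not vanish anywhere
(component `!h`: old rows; component `h`: new rows, constant).  At stage `m + 2`: the new rows
`newR (newR _)` resp. `oldR (newR _)`: constant entries, equal labels; `full`: use the projections
`zc`, the constant matrix units between rows of equal labels, and for rows `p` of label `i + 1 > 0`
the elements `v_c · unit p (r0)` (`v_c = ω_{i, c}`; `∑_c v_c ^ 2` is invertible) to get all the
`ep p`, and then `1`.  See `Pool/Agent/Run7/h973/AH/SIMPLE.lean` for a similar proof. -/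
def S_SIMPLE : Prop :=
  ∀ (L : Type) [CStarAlgebra L] (j : ∀ n, A n →⋆ₐ[ℂ] L), IsLim φ j → IsSimpleRing L

/-- SEP.  `C(E, MA (I n) ℂ)` is second countable (cf. `Pool/Agent/Run7/h704/AH/SEP_ISAH.lean`). -/
def S_SEP : Prop :=
  ∀ (L : Type) [CStarAlgebra L] (j : ∀ n, A n →⋆ₐ[ℂ] L), IsLim φ j → TopologicalSpace.SeparableSpace L

/-- SF.  `Pool.Agent.H188R3.IsLim.stablyFinite` (file `Pool/Agent/H188R3/Finite.lean`). -/
def S_SF : Prop :=
  ∀ (L : Type) [CStarAlgebra L] (j : ∀ n, A n →⋆ₐ[ℂ] L), IsLim φ j → IsStablyFiniteRing L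

/-! ### Traces -/

/-- UT.  `tn (φ a) (h, ω) = (tn a (h, ω) + tn a (!h, x_n)) / 2`, so the oscillation in one component
is halved, and then the difference between the components is at most this oscillation. -/
def S_UT : Prop :=
  ∀ (n : ℕ) (a : A n) (ε : ℝ), 0 < ε → ∃ (m : ℕ) (c : ℂ), n ≤ m ∧
    ∀ e, ‖tn (trans φ n m a) e - c‖ ≤ ε

/-- TRP.  `σ a = σ (∑ p, ep p * a * ep p) = ∑ p, σ (a_pp • ep p)`, and `σ (g • ep p) = σ (g • e0 n)`
for all `g : E → ℂ` invariant and dependent on the first `n` coordinates: for `lab n p = i + 1` let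
`v c ω = ω_{i, c} / ‖ω_i‖₂`; `V_c = v c • unit p (r0 n)` is in `A n`, `∑ c, V_c V_c* g = g ep p`,
`∑ c, V_c* V_c g = g e0`.  So `σ a = σ (tn a • 1)`; use `ts_norm` (`Pool/Agent/Run7/h803/AH/TS.lean`). -/
def S_TRP : Prop :=
  ∀ (n : ℕ) (σ : TracialState (A n)) (a : A n) (c : ℂ) (ε : ℝ), (∀ e, ‖tn a e - c‖ ≤ ε) →
    ‖σ.val a - c‖ ≤ ε

/-- UNIQ. -/
def S_UNIQ : Prop :=
  S_UT → S_TRP → ∀ (L : Type) [CStarAlgebra L] (j : ∀ n, A n →⋆ₐ[ℂ] L), IsLim φ j →
    ∀ σ τ : TracialState L, σ = τ

/-- EX.  The limit along an ultrafilter of the `tn a (e_0)`; cf. `t_AV` in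
`Pool/Agent/Run7/h973/AH/AVPT.lean`. -/
def S_EX : Prop :=
  ∀ (L : Type) [CStarAlgebra L] (j : ∀ n, A n →⋆ₐ[ℂ] L), IsLim φ j → Nonempty (TracialState L)

/-! ### Quasitraces and comparison -/

/-- QTV.  As in TRP: `τ (v c ^ 2 • ep p) = τ (v c ^ 2 • e0)`, `τ` is additive on commuting families, so
`τ (ep p) = τ (e0)` for all `2 ^ n` rows `p`, and the sum is `τ 1 = 1`. -/
def S_QTV : Prop :=
  ∀ (L : Type) [CStarAlgebra L] (j : ∀ n, A n →⋆ₐ[ℂ] L), IsLim φ j → ∀ (τ : QT L) (n : ℕ),
    τ.val 1 (om (j n (e0 n))) = (1 / 2) ^ n ∧ τ.val 1 (om (1 - j n (e0 n))) = 1 - (1 / 2) ^ n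

/-- NC.  Otherwise there are `m ≥ n`, `v : A m` with `‖v (1 - trans e0) v* - trans e0‖ < 1/2`. The
entry at the first row: `∑_{p ≠ r0} |v_{r0, p}|^2 ≥ 1/2` at all points of the component `true` (the
entry `(r0, r0)` of the diagonal matrix `trans e0` is `1`). The `dm i` functions `Re v_{r0, p}`,
`Im v_{r0, p}` (`lab m p = i + 1`) are odd in the variable `i` and even in the others, so they have a
common zero by `Pool.Agent.Helper133.BT.triangular`. -/
def S_NC : Prop :=
  ∀ (L : Type) [CStarAlgebra L] (j : ∀ n, A n →⋆ₐ[ℂ] L), IsLim φ j → ∀ n : ℕ,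
    ¬ CuntzBelow (om (j n (e0 n))) (om (1 - j n (e0 n)))

/-- RC.  `n = 2`: `1/4 + r < 3/4` for `r < 1/2`. -/
def S_RC : Prop :=
  S_QTV → S_NC → ∀ (L : Type) [CStarAlgebra L] (j : ∀ n, A n →⋆ₐ[ℂ] L), IsLim φ j →
    1 / 2 ≤ radComp L

/-! ### The action -/

/-- ACT.  `sw (n + 1) (φ n f) = φ n (sw n f)`, so the `sw n` define an automorphism of `L`
(`IsLim.lift`, `IsLim.hom_ext`).  `e = j n (zc n true)` with `n` large is central in `A n`. -/
def S_ACT : Prop :=
  ∀ (L : Type) [CStarAlgebra L] (j : ∀ n, A n →⋆ₐ[ℂ] L), IsLim φ j →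
    ∃ β : L ≃⋆ₐ[ℂ] L, (∀ x, β (β x) = x) ∧
      ∀ (F : Finset L) (ε : ℝ), 0 < ε → ∃ e : L, IsStarProjection e ∧ β e = 1 - e ∧
        ∀ a ∈ F, ‖e * a - a * e‖ < ε

end Run7.h745.RV
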