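import Pool.Agent.Run7.h745.RV.VC

/-!
# Piece QTV
-/

set_option autoImplicit false

noncomputable section

namespace Run7.h745.RV

open Filter Topology Matrix Pool.Agent.H188R3 Pool.Agent.Helper133.BT Pool.Agent.Helper133.BU
open Run7.h745
open scoped ENNReal NNReal

/-! ### Quasitraces -/

section
variable {R : Type} [Ring R] [StarRing R] [Algebra ℂ R]

lemma qt_add {τ : R → ℂ} (hτ : IsQuasitrace τ) {x y : R} (hx : IsSelfAdjoint x)
    (hy : IsSelfAdjoint y) (h : Commute x y) : τ (x + y) = τ x + τ y := by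
  have h1 := hτ.linear 1 x y hx.isStarNormal hy.isStarNormal h (by rw [hy.star_eq]; exact h)
  rwa [one_smul, one_mul] at h1

lemma qt_zero {τ : R → ℂ} (hτ : IsQuasitrace τ) : τ 0 = 0 := by
  have h1 := qt_add hτ (IsSelfAdjoint.zero R) (IsSelfAdjoint.zero R) (Commute.refl (0 : R))
  rw [add_zero] at h1
  exact left_eq_add.1 h1

lemma qt_sum {τ : R → ℂ} (hτ : IsQuasitrace τ) {ι : Type} (s : Finset ι) (x : ι → R)
    (hx : ∀ i, IsSelfAdjoint (x i)) (h : ∀ i k, Commute (x i) (x k)) :
    τ (∑ i ∈ s, x i) = ∑ i ∈ s, τ (x i) := by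
  classical
  induction s using Finset.induction_on with
  | empty => rw [Finset.sum_empty, Finset.sum_empty, qt_zero hτ]
  | insert a s ha ih =>
    rw [Finset.sum_insert ha, Finset.sum_insert ha, ← ih]
    refine qt_add hτ (hx a) ?_ (Commute.sum_right _ _ _ fun i _ => h a i)
    exact isSelfAdjoint_sum s fun i _ => hx i

end

/-- the `1 × 1` matrices -/
def omh (L : Type) [CStarAlgebra L] : L →⋆ₐ[ℂ] Matrix (Fin 1) (Fin 1) L where
  toFun := om
  map_one' := by ext a b; fin_cases a; fin_cases b; rfl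
  map_mul' x y := by
    ext a b
    rw [Matrix.mul_apply, Fin.sum_univ_one]
    rfl
  map_zero' := rfl
  map_add' _ _ := rfl
  commutes' c := by ext a b; fin_cases a; fin_cases b; rfl
  map_star' _ := rfl

lemma omh_apply {L : Type} [CStarAlgebra L] (x : L) : omh L x = om x := rfl

lemma qt_comp {R R' : Type} [Ring R] [StarRing R] [Algebra ℂ R] [Ring R'] [StarRing R']
    [Algebra ℂ R'] {τ : R' → ℂ} (hτ : IsQuasitrace τ) (f : R →⋆ₐ[ℂ] R') :
    IsQuasitrace fun x => τ (f x) where
  nonneg x := by rw [map_mul, map_star]; exact hτ.nonneg _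
  comm x := by rw [map_mul, map_mul, map_star]; exact hτ.comm _
  add_I a b ha hb := by
    rw [map_add, map_smul]
    exact hτ.add_I _ _ (by rw [IsSelfAdjoint, ← map_star, ha.star_eq])
      (by rw [IsSelfAdjoint, ← map_star, hb.star_eq])
  linear c x y hx hy h h' := by
    rw [map_add, map_smul]
    refine hτ.linear c _ _ ?_ ?_ ?_ ?_
    · exact ⟨by rw [← map_star]; exact hx.star_comm_self.map f⟩
    · exact ⟨by rw [← map_star]; exact hy.star_comm_self.map f⟩
    · exact h.map f
    · rw [← map_star]; exact h'.map f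

/-! ### The values -/

lemma isSelfAdjoint_ep {n : ℕ} (p : I n) : IsSelfAdjoint (ep p) := by
  apply A.ext; intro e
  rw [A.at_star, ep_at, MA.star_unit]

lemma commute_ep {n : ℕ} (p q : I n) : Commute (ep p) (ep q) := by
  apply A.ext; intro e
  rw [A.at_mul, A.at_mul, ep_at, ep_at, MA.unit_mul, MA.unit_mul]
  by_cases h : p = q
  · subst h; rfl
  · rw [if_neg h, if_neg (Ne.symm h)]

lemma qt_ep {n : ℕ} {τ : A n → ℂ} (hτ : IsQuasitrace τ) (p : I n) : τ (ep p) = τ (e0 n) := by
  by_cases hp : lab n p = 0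
  · rw [lab_eq_zero hp]; rfl
  · obtain ⟨i, hi⟩ : ∃ i, lab n p = i + 1 := Nat.exists_eq_succ_of_ne_zero hp
    rw [← sum_V_mul_star p i hi, ← sum_V_star_mul p i hi, qt_sum hτ, qt_sum hτ]
    · exact Finset.sum_congr rfl fun c _ => (hτ.comm _).symm
    · exact fun c => IsSelfAdjoint.star_mul_self _
    · intro c c'
      apply A.ext; intro e
      rw [A.at_mul (star (V p i hi c) * V p i hi c), A.at_mul (star (V p i hi c') * V p i hi c'),
        V_star_mul, V_star_mul, smul_mul_smul_comm, smul_mul_smul_comm,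
        mul_comm (vf i c e.2 * vf i c e.2)]
    · exact fun c => IsSelfAdjoint.mul_star_self _
    · intro c c'
      apply A.ext; intro e
      rw [A.at_mul (V p i hi c * star (V p i hi c)), A.at_mul (V p i hi c' * star (V p i hi c')),
        V_mul_star, V_mul_star, smul_mul_smul_comm, smul_mul_smul_comm,
        mul_comm (vf i c e.2 * vf i c e.2)]

lemma qt_e0 {n : ℕ} {τ : A n → ℂ} (hτ : IsQuasitrace τ) (h1 : τ 1 = 1) :
    τ (e0 n) = (1 / 2) ^ n := by
  have h2 : ∑ p : I n, τ (ep p) = 1 := by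
    rw [← qt_sum hτ _ _ isSelfAdjoint_ep commute_ep, sum_ep, h1]
  rw [Finset.sum_congr rfl fun p _ => qt_ep hτ p, Finset.sum_const, Finset.card_univ, card_I,
    nsmul_eq_mul] at h2
  push_cast at h2
  have h3 : (2 : ℂ) ^ n ≠ 0 := pow_ne_zero _ two_ne_zero
  rw [one_div, inv_pow]
  field_simp
  rw [mul_comm]
  exact h2

theorem t_QTV : S_QTV := by
  intro L _ j h τ n
  have hq : IsQuasitrace fun x : A n => τ.val 1 (om (j n x)) :=
    qt_comp (τ.isQuasitrace 1) ((omh L).comp (j n))
  have hq1 : τ.val 1 (om (j n 1)) = 1 := by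
    have h2 : om (j n 1) = (1 : Matrix (Fin 1) (Fin 1) L) := by
      rw [map_one]; exact map_one (omh L)
    rw [h2]
    exact τ.map_one
  have h3 : τ.val 1 (om (j n (e0 n))) = (1 / 2) ^ n := qt_e0 hq hq1
  refine ⟨h3, ?_⟩
  have h4 : τ.val 1 (om (j n (1 - e0 n) )) + τ.val 1 (om (j n (e0 n))) = 1 := by
    have h5 := qt_add hq (x := 1 - e0 n) (y := e0 n) ((IsSelfAdjoint.one _).sub (isSelfAdjoint_ep _))
      (isSelfAdjoint_ep _) (Commute.sub_left (Commute.one_left _) (Commute.refl _))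
    rw [sub_add_cancel] at h5
    rw [← h5]
    exact hq1
  rw [map_sub, map_one, h3] at h4
  exact eq_sub_of_add_eq h4

end Run7.h745.RV
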