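import Pool.Agent.Run7.h745.AH.Sys
import Pool.Agent.Helper133.BUProd

/-!
# MP_953b63_an, MP_81d4f5_an: a Villadsen algebra of the second kind with a Rokhlin action of `ℤ/2`

`Ω` is a product of spheres `K (dm i)`, `dm i = 2 · 2^i`. The algebra of level `n` consists of the
continuous functions `f : Bool × Ω → M_{2^n}` which depend only on the first `n` spheres and are
equivariant with respect to the antipodal maps; the row `p` of the matrices has a label `lab n p`
(`0`: even in all variables; `i + 1`: odd in the variable `i`), so that `f` is an endomorphism of the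
bundle `θ ⊕ ⨁_{i < n} 2^i L_i` over the product of the projective spaces.
The connecting maps are `f ↦ f ∘ π ⊕ f (x_n) ⊗ L_n` (with a change of the component of `Bool` in the
second summand).
-/

set_option autoImplicit false

noncomputable section

namespace Run7.h745.RV

open Filter Topology Pool.Agent.H188R3 Pool.Agent.Helper133.BT Pool.Agent.Helper133.BU

/-! ### Rows and labels -/

/-- the rows of the matrices of level `n` -/
def I : ℕ → Type
  | 0 => Unit
  | n + 1 => I n ⊕ I n

instance instFintypeI : ∀ n, Fintype (I n)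
  | 0 => inferInstanceAs (Fintype Unit)
  | n + 1 => by
    haveI := instFintypeI n
    exact inferInstanceAs (Fintype (I n ⊕ I n))

instance instDecidableEqI : ∀ n, DecidableEq (I n)
  | 0 => inferInstanceAs (DecidableEq Unit)
  | n + 1 => by
    haveI := instDecidableEqI n
    exact inferInstanceAs (DecidableEq (I n ⊕ I n))

/-- old rows -/
def oldR {n : ℕ} (p : I n) : I (n + 1) := (Sum.inl p : I n ⊕ I n)

/-- new rows -/
def newR {n : ℕ} (p : I n) : I (n + 1) := (Sum.inr p : I n ⊕ I n)

/-- the first row -/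
def r0 : ∀ n, I n
  | 0 => ()
  | n + 1 => oldR (r0 n)

instance (n : ℕ) : Nonempty (I n) := ⟨r0 n⟩

/-- the label of a row -/
def lab : ∀ n, I n → ℕ
  | 0, _ => 0
  | n + 1, p => Sum.elim (lab n) (fun _ => n + 1) (show I n ⊕ I n from p)

lemma lab_old {n : ℕ} (p : I n) : lab (n + 1) (oldR p) = lab n p := rfl
lemma lab_new {n : ℕ} (p : I n) : lab (n + 1) (newR p) = n + 1 := rfl

lemma row_cases {n : ℕ} (p : I (n + 1)) : (∃ p', p = oldR p') ∨ ∃ p', p = newR p' := by
  rcases (show I n ⊕ I n from p) with p' | p'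
  · exact Or.inl ⟨p', rfl⟩
  · exact Or.inr ⟨p', rfl⟩

lemma lab_le : ∀ {n : ℕ} (p : I n), lab n p ≤ n
  | 0, _ => le_rfl
  | n + 1, p => by
    rcases row_cases p with ⟨p', rfl⟩ | ⟨p', rfl⟩
    · rw [lab_old]; exact (lab_le p').trans (Nat.le_succ n)
    · rw [lab_new]

lemma lab_r0 : ∀ n, lab n (r0 n) = 0
  | 0 => rfl
  | n + 1 => by rw [r0, lab_old, lab_r0 n]

lemma lab_eq_zero : ∀ {n : ℕ} {p : I n}, lab n p = 0 → p = r0 n
  | 0, _, _ => rfl
  | n + 1, p, h => by
    rcases row_cases p with ⟨p', rfl⟩ | ⟨p', rfl⟩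
    · rw [lab_old] at h; rw [lab_eq_zero h]; rfl
    · rw [lab_new] at h; omega

lemma card_I : ∀ n, Fintype.card (I n) = 2 ^ n
  | 0 => rfl
  | n + 1 => by
    have h : Fintype.card (I (n + 1)) = Fintype.card (I n) + Fintype.card (I n) :=
      Fintype.card_sum (α := I n) (β := I n)
    rw [h, card_I n]; ring

/-- the sign of the row `p` under the `i`-th antipodal map -/
def sg {n : ℕ} (i : ℕ) (p : I n) : ℂ := if lab n p = i + 1 then -1 else 1

lemma sg_mul {n : ℕ} (i : ℕ) (p : I n) : sg i p * sg i p = 1 := by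
  unfold sg; split_ifs <;> norm_num

lemma sg_old {n : ℕ} (i : ℕ) (p : I n) : sg i (oldR p) = sg i p := rfl

lemma sg_new {n : ℕ} (i : ℕ) (p q : I n) : sg i (newR p) = sg i (newR q) := rfl

lemma star_sg {n : ℕ} (i : ℕ) (p : I n) : star (sg i p) = sg i p := by
  unfold sg; split_ifs <;> simp

/-! ### Spaces -/

/-- dimension of the `i`-th sphere -/
def dm (i : ℕ) : ℕ := 2 * 2 ^ i

instance (m : ℕ) : CompactSpace (K m) := isCompact_iff_compactSpace.1 (K_compact m)

instance (m : ℕ) : Nonempty (K m) := ⟨⟨ev m 0, ev_mem m⟩⟩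

/-- the product of the spheres -/
abbrev Ω : Type := ∀ i : ℕ, K (dm i)

instance : Nonempty Ω := inferInstance

/-- the `i`-th antipodal map -/
def fl (i : ℕ) (ω : Ω) : Ω := Function.update ω i ⟨-(ω i).1, K_neg _ (ω i).2⟩

lemma fl_ne {i j : ℕ} (h : j ≠ i) (ω : Ω) : fl i ω j = ω j := Function.update_of_ne h _ _

lemma fl_self (i : ℕ) (ω : Ω) : (fl i ω i).1 = -(ω i).1 := by
  unfold fl; rw [Function.update_self]

/-- the space: two copies of `Ω` -/
abbrev E : Type := Bool × Ω

/-- the point of the `n`-th evaluation: every term of a dense sequence occurs infinitely often -/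
def xs (n : ℕ) : Ω := TopologicalSpace.denseSeq Ω n.unpair.1

/-! ### The algebras -/

/-- the algebra of level `n` -/
def S (n : ℕ) : StarSubalgebra ℂ C(E, MA (I n) ℂ) where
  carrier := {f | (∀ (h : Bool) (ω ω' : Ω), (∀ i < n, ω i = ω' i) → f (h, ω) = f (h, ω')) ∧
    ∀ (h : Bool) (i : ℕ) (ω : Ω) (p q : I n),
      (f (h, fl i ω)).en p q = sg i p * sg i q * (f (h, ω)).en p q}
  mul_mem' := by
    rintro f g ⟨hf1, hf2⟩ ⟨hg1, hg2⟩
    refine ⟨fun h ω ω' hω => ?_, fun h i ω p q => ?_⟩
    · rw [ContinuousMap.mul_apply, ContinuousMap.mul_apply, hf1 h ω ω' hω, hg1 h ω ω' hω]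
    · rw [ContinuousMap.mul_apply, ContinuousMap.mul_apply, MA.en_mul, MA.en_mul, Finset.mul_sum]
      refine Finset.sum_congr rfl fun k _ => ?_
      rw [hf2, hg2]
      linear_combination (sg i p * sg i q * (f (h, ω)).en p k * (g (h, ω)).en k q) * sg_mul i k
  add_mem' := by
    rintro f g ⟨hf1, hf2⟩ ⟨hg1, hg2⟩
    refine ⟨fun h ω ω' hω => ?_, fun h i ω p q => ?_⟩
    · rw [ContinuousMap.add_apply, ContinuousMap.add_apply, hf1 h ω ω' hω, hg1 h ω ω' hω]
    · rw [ContinuousMap.add_apply, ContinuousMap.add_apply, MA.en_add, MA.en_add, hf2, hg2]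
      ring
  algebraMap_mem' := by
    intro c
    refine ⟨fun h ω ω' hω => rfl, fun h i ω p q => ?_⟩
    have h1 : ∀ e : E, (algebraMap ℂ C(E, MA (I n) ℂ) c) e = algebraMap ℂ (MA (I n) ℂ) c :=
      fun _ => rfl
    rw [h1, h1, MA.en_algebraMap]
    split_ifs with hpq
    · rw [hpq, sg_mul, one_mul]
    · rw [mul_zero]
  star_mem' := by
    rintro f ⟨hf1, hf2⟩
    refine ⟨fun h ω ω' hω => ?_, fun h i ω p q => ?_⟩
    · rw [ContinuousMap.star_apply, ContinuousMap.star_apply, hf1 h ω ω' hω]
    · rw [ContinuousMap.star_apply, ContinuousMap.star_apply, MA.en_star, MA.en_star, hf2,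
        star_mul', star_mul', star_sg, star_sg]
      ring

lemma continuous_en {n : ℕ} (p q : I n) : Continuous fun x : MA (I n) ℂ => x.en p q := by
  have h : Continuous fun x : Matrix (I n) (I n) ℂ => x p q :=
    (continuous_apply q).comp (continuous_apply p)
  exact h

lemma isClosed_S (n : ℕ) : IsClosed (S n : Set C(E, MA (I n) ℂ)) := by
  have h : (S n : Set C(E, MA (I n) ℂ)) =
      (⋂ (h : Bool), ⋂ (ω : Ω), ⋂ (ω' : Ω), ⋂ (_ : ∀ i < n, ω i = ω' i),
        {f : C(E, MA (I n) ℂ) | f (h, ω) = f (h, ω')}) ∩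
      ⋂ (h : Bool), ⋂ (i : ℕ), ⋂ (ω : Ω), ⋂ (p : I n), ⋂ (q : I n),
        {f : C(E, MA (I n) ℂ) | (f (h, fl i ω)).en p q = sg i p * sg i q * (f (h, ω)).en p q} := by
    ext f
    simp only [Set.mem_inter_iff, Set.mem_iInter, Set.mem_ofPred_eq]
    rfl
  rw [h]
  have hev : ∀ e : E, Continuous fun f : C(E, MA (I n) ℂ) => f e :=
    fun e => continuous_eval_const e
  refine IsClosed.inter ?_ ?_
  · exact isClosed_iInter fun h => isClosed_iInter fun ω => isClosed_iInter fun ω' =>
      isClosed_iInter fun _ => isClosed_eq (hev _) (hev _)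
  · exact isClosed_iInter fun h => isClosed_iInter fun i => isClosed_iInter fun ω =>
      isClosed_iInter fun p => isClosed_iInter fun q =>
        isClosed_eq ((continuous_en p q).comp (hev _))
          (continuous_const.mul ((continuous_en p q).comp (hev _)))

/-- the algebra of level `n` -/
def A (n : ℕ) : Type := S n

instance (n : ℕ) : CStarAlgebra (A n) := StarSubalgebra.cstarAlgebra (S n) (h_closed := isClosed_S n)

/-- values -/
def A.at {n : ℕ} (f : A n) (e : E) : MA (I n) ℂ := (show S n from f).1 e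

/-- evaluation -/
def evA (n : ℕ) (e : E) : A n →⋆ₐ[ℂ] MA (I n) ℂ where
  toFun f := f.at e
  map_one' := rfl
  map_mul' _ _ := rfl
  map_zero' := rfl
  map_add' _ _ := rfl
  commutes' _ := rfl
  map_star' _ := rfl

lemma evA_apply {n : ℕ} (e : E) (f : A n) : evA n e f = f.at e := rfl

namespace A

variable {n : ℕ}

@[ext] lemma ext {f g : A n} (h : ∀ e, f.at e = g.at e) : f = g :=
  Subtype.ext (ContinuousMap.ext h)

@[simp] lemma at_one (e : E) : (1 : A n).at e = 1 := rfl
@[simp] lemma at_zero (e : E) : (0 : A n).at e = 0 := rfl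
@[simp] lemma at_mul (f g : A n) (e : E) : (f * g).at e = f.at e * g.at e := rfl
@[simp] lemma at_add (f g : A n) (e : E) : (f + g).at e = f.at e + g.at e := rfl
@[simp] lemma at_sub (f g : A n) (e : E) : (f - g).at e = f.at e - g.at e := rfl
@[simp] lemma at_neg (f : A n) (e : E) : (-f).at e = -f.at e := rfl
@[simp] lemma at_star (f : A n) (e : E) : (star f).at e = star (f.at e) := rfl
@[simp] lemma at_smul (c : ℂ) (f : A n) (e : E) : (c • f).at e = c • f.at e := rfl

lemma at_continuous (f : A n) : Continuous f.at := (show S n from f).1.continuous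

lemma dep (f : A n) (h : Bool) {ω ω' : Ω} (hω : ∀ i < n, ω i = ω' i) :
    f.at (h, ω) = f.at (h, ω') := (show S n from f).2.1 h ω ω' hω

lemma par (f : A n) (h : Bool) (i : ℕ) (ω : Ω) (p q : I n) :
    (f.at (h, fl i ω)).en p q = sg i p * sg i q * (f.at (h, ω)).en p q :=
  (show S n from f).2.2 h i ω p q

/-- make an element -/
def mk (f : C(E, MA (I n) ℂ))
    (h1 : ∀ (h : Bool) (ω ω' : Ω), (∀ i < n, ω i = ω' i) → f (h, ω) = f (h, ω'))
    (h2 : ∀ (h : Bool) (i : ℕ) (ω : Ω) (p q : I n),
      (f (h, fl i ω)).en p q = sg i p * sg i q * (f (h, ω)).en p q) : A n :=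
  (⟨f, h1, h2⟩ : S n)

@[simp] lemma mk_at (f : C(E, MA (I n) ℂ)) (h1) (h2) (e : E) : (mk f h1 h2).at e = f e := rfl

lemma norm_at_le (f : A n) (e : E) : ‖f.at e‖ ≤ ‖f‖ :=
  ContinuousMap.norm_coe_le_norm (show S n from f).1 e

end A

instance (n : ℕ) : Nontrivial (A n) := by
  refine ⟨1, 0, fun h => ?_⟩
  have h1 : (1 : MA (I n) ℂ) = 0 := congrArg (fun f : A n => f.at (true, Classical.arbitrary Ω)) h
  exact one_ne_zero h1

/-! ### The connecting maps -/

/-- positions -/
def pe (n : ℕ) : I (n + 1) ≃ Σ _ : Bool, I n where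
  toFun p := Sum.elim (fun p' => ⟨false, p'⟩) (fun p' => ⟨true, p'⟩) (show I n ⊕ I n from p)
  invFun x := if x.1 then newR x.2 else oldR x.2
  left_inv p := by
    rcases (show I n ⊕ I n from p) with p' | p' <;> rfl
  right_inv x := by
    rcases x with ⟨b, p⟩
    cases b <;> rfl

/-- the block diagonal matrix with the blocks `x`, `y` -/
def dg (n : ℕ) (x y : MA (I n) ℂ) : MA (I (n + 1)) ℂ :=
  AH.bd (pe n) (fun b : Bool => if b then y else x)

lemma dg_old {n : ℕ} (x y : MA (I n) ℂ) (p q : I n) : (dg n x y).en (oldR p) (oldR q) = x.en p q :=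
  AH.bd_same (pe n) (fun b : Bool => if b then y else x) false p q

lemma dg_new {n : ℕ} (x y : MA (I n) ℂ) (p q : I n) : (dg n x y).en (newR p) (newR q) = y.en p q :=
  AH.bd_same (pe n) (fun b : Bool => if b then y else x) true p q

lemma dg_old_new {n : ℕ} (x y : MA (I n) ℂ) (p q : I n) : (dg n x y).en (oldR p) (newR q) = 0 :=
  AH.bd_ne (pe n) (fun b : Bool => if b then y else x) (oldR p) (newR q) (by
    show false ≠ true; decide)

lemma dg_new_old {n : ℕ} (x y : MA (I n) ℂ) (p q : I n) : (dg n x y).en (newR p) (oldR q) = 0 :=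
  AH.bd_ne (pe n) (fun b : Bool => if b then y else x) (newR p) (oldR q) (by
    show true ≠ false; decide)

/-- the two blocks as elements of the product -/
def prs {n : ℕ} (x y : MA (I n) ℂ) : Bool → MA (I n) ℂ := fun b => if b then y else x

lemma dg_eq {n : ℕ} (x y : MA (I n) ℂ) : dg n x y = AH.bd (pe n) (prs x y) := rfl

/-- the connecting maps: `f ↦ f ∘ π ⊕ f (x_n)` -/
def φ (n : ℕ) : A n →⋆ₐ[ℂ] A (n + 1) where
  toFun f := A.mk ⟨fun e => dg n (f.at e) (f.at (!e.1, xs n)), by
      refine (AH.bd_continuous (pe n)).comp (continuous_pi fun b => ?_)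
      cases b
      · exact f.at_continuous
      · exact f.at_continuous.comp
          ((continuous_of_discreteTopology (f := Bool.not)).comp continuous_fst |>.prodMk
            continuous_const)⟩
    (fun h ω ω' hω => by
      show dg n (f.at (h, ω)) (f.at (!h, xs n)) = dg n (f.at (h, ω')) (f.at (!h, xs n))
      rw [f.dep h fun i hi => hω i (hi.trans (Nat.lt_succ_self n))])
    (fun h i ω p q => by
      show (dg n (f.at (h, fl i ω)) (f.at (!h, xs n))).en p q =
        sg i p * sg i q * (dg n (f.at (h, ω)) (f.at (!h, xs n))).en p q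
      rcases row_cases p with ⟨p', rfl⟩ | ⟨p', rfl⟩ <;> rcases row_cases q with ⟨q', rfl⟩ | ⟨q', rfl⟩
      · rw [dg_old, dg_old, f.par, sg_old, sg_old]
      · rw [dg_old_new, dg_old_new, mul_zero]
      · rw [dg_new_old, dg_new_old, mul_zero]
      · rw [dg_new, dg_new, sg_new i p' q', sg_mul, one_mul])
  map_one' := by
    apply A.ext; intro e
    show AH.bd (pe n) (prs 1 1) = 1
    have : (prs 1 1 : Bool → MA (I n) ℂ) = 1 := by funext b; cases b <;> rfl
    rw [this, map_one]
  map_mul' f g := by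
    apply A.ext; intro e
    show AH.bd (pe n) (prs (f.at e * g.at e) (f.at (!e.1, xs n) * g.at (!e.1, xs n))) =
      AH.bd (pe n) (prs (f.at e) (f.at (!e.1, xs n))) * AH.bd (pe n) (prs (g.at e) (g.at (!e.1, xs n)))
    rw [← map_mul]
    congr 1
    funext b; cases b <;> rfl
  map_zero' := by
    apply A.ext; intro e
    show AH.bd (pe n) (prs 0 0) = 0
    have : (prs 0 0 : Bool → MA (I n) ℂ) = 0 := by funext b; cases b <;> rfl
    rw [this, map_zero]
  map_add' f g := by
    apply A.ext; intro e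
    show AH.bd (pe n) (prs (f.at e + g.at e) (f.at (!e.1, xs n) + g.at (!e.1, xs n))) =
      AH.bd (pe n) (prs (f.at e) (f.at (!e.1, xs n))) + AH.bd (pe n) (prs (g.at e) (g.at (!e.1, xs n)))
    rw [← map_add]
    congr 1
    funext b; cases b <;> rfl
  commutes' c := by
    apply A.ext; intro e
    have h1 : ∀ (m : ℕ) (e : E), (algebraMap ℂ (A m) c).at e = algebraMap ℂ (MA (I m) ℂ) c :=
      fun _ _ => rfl
    rw [h1, A.mk_at]
    show AH.bd (pe n) (prs (algebraMap ℂ (MA (I n) ℂ) c) (algebraMap ℂ (MA (I n) ℂ) c)) = _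
    have : (prs (algebraMap ℂ (MA (I n) ℂ) c) (algebraMap ℂ (MA (I n) ℂ) c)) =
        algebraMap ℂ (Bool → MA (I n) ℂ) c := by funext b; cases b <;> rfl
    rw [this, AlgHomClass.commutes]
  map_star' f := by
    apply A.ext; intro e
    show AH.bd (pe n) (prs (star (f.at e)) (star (f.at (!e.1, xs n)))) =
      star (AH.bd (pe n) (prs (f.at e) (f.at (!e.1, xs n))))
    rw [← map_star]
    congr 1
    funext b; cases b <;> rfl

lemma φ_at {n : ℕ} (f : A n) (e : E) : (φ n f).at e = dg n (f.at e) (f.at (!e.1, xs n)) := rfl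

/-- the connecting maps are injective -/
theorem φ_inj (n : ℕ) : Function.Injective (φ n) := by
  intro f g h
  apply A.ext; intro e
  ext p q
  have h1 : ((φ n f).at e).en (oldR p) (oldR q) = ((φ n g).at e).en (oldR p) (oldR q) := by rw [h]
  rwa [φ_at, φ_at, dg_old, dg_old] at h1

end Run7.h745.RV
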