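import Pool.Agent.Run7.h745.RV.Iface
import Pool.Agent.Run7.h973.AH.SIMPLE

/-!
# The elements `v_c · unit p r0`
-/

set_option autoImplicit false

noncomputable section

namespace Run7.h745.RV

open Filter Topology Matrix Pool.Agent.H188R3 Pool.Agent.Helper133.BT Pool.Agent.Helper133.BU
open Run7.h745
open scoped ENNReal NNReal

/-- an odd function with square `|t|` -/
def osq (t : ℝ) : ℝ := √t - √(-t)

lemma osq_neg (t : ℝ) : osq (-t) = -osq t := by unfold osq; rw [neg_neg]; ring

lemma osq_sq (t : ℝ) : osq t * osq t = |t| := by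
  unfold osq
  rcases le_total 0 t with h | h
  · rw [Real.sqrt_eq_zero_of_nonpos (by linarith : -t ≤ 0), sub_zero, Real.mul_self_sqrt h,
      abs_of_nonneg h]
  · rw [Real.sqrt_eq_zero_of_nonpos h, zero_sub, neg_mul_neg, Real.mul_self_sqrt (by linarith),
      abs_of_nonpos h]

lemma osq_continuous : Continuous osq := by unfold osq; fun_prop

/-- the functions `v_c` -/
def vf (i : ℕ) (c : Fin (dm i + 1)) (ω : Ω) : ℂ := (osq ((ω i).1 c) : ℝ)

lemma vf_continuous (i : ℕ) (c : Fin (dm i + 1)) : Continuous (vf i c) :=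
  Complex.continuous_ofReal.comp (osq_continuous.comp
    ((continuous_apply c).comp (continuous_subtype_val.comp (continuous_apply i))))

lemma vf_fl (i : ℕ) (c : Fin (dm i + 1)) (k : ℕ) (ω : Ω) :
    vf i c (fl k ω) = if i = k then -vf i c ω else vf i c ω := by
  unfold vf
  split_ifs with h
  · subst h
    rw [fl_self, Pi.neg_apply, osq_neg]; push_cast; ring
  · rw [fl_ne h]

lemma vf_dep (i : ℕ) (c : Fin (dm i + 1)) {n : ℕ} (h : i < n) {ω ω' : Ω}
    (hω : ∀ i < n, ω i = ω' i) : vf i c ω = vf i c ω' := by unfold vf; rw [hω i h]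

lemma star_vf (i : ℕ) (c : Fin (dm i + 1)) (ω : Ω) : star (vf i c ω) = vf i c ω := by
  unfold vf; exact Complex.conj_ofReal _

lemma sum_vf (i : ℕ) (ω : Ω) : ∑ c, vf i c ω * vf i c ω = 1 := by
  have h1 : ∑ c, |(ω i).1 c| = 1 := (ω i).2
  unfold vf
  have h2 : ∀ c, ((osq ((ω i).1 c) : ℝ) : ℂ) * ((osq ((ω i).1 c) : ℝ) : ℂ) = (|(ω i).1 c| : ℝ) := by
    intro c
    rw [← Complex.ofReal_mul, osq_sq]
  rw [Finset.sum_congr rfl fun c _ => h2 c, ← Complex.ofReal_sum, h1, Complex.ofReal_one]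

lemma sg_zero {n : ℕ} (k : ℕ) : sg k (r0 n) = 1 := by
  unfold sg; rw [lab_r0, if_neg (by omega)]

/-- the elements `v_c · unit p r0` -/
def V {n : ℕ} (p : I n) (i : ℕ) (hp : lab n p = i + 1) (c : Fin (dm i + 1)) : A n :=
  A.mk ⟨fun e => vf i c e.2 • MA.unit p (r0 n),
      ((vf_continuous i c).comp continuous_snd).smul continuous_const⟩
    (fun h ω ω' hω => by
      show vf i c ω • MA.unit p (r0 n) = vf i c ω' • MA.unit p (r0 n)
      rw [vf_dep i c (by have := lab_le p; omega) hω])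
    (fun h k ω a b => by
      show (vf i c (fl k ω) • MA.unit p (r0 n)).en a b =
        sg k a * sg k b * (vf i c ω • MA.unit p (r0 n)).en a b
      rw [MA.en_smul, MA.en_smul, MA.en_unit, vf_fl]
      by_cases hab : a = p ∧ b = r0 n
      · obtain ⟨rfl, rfl⟩ := hab
        have h2 : sg k a = if i = k then -1 else 1 := by
          unfold sg
          rw [hp]
          by_cases hk : i = k
          · rw [if_pos (by omega), if_pos hk]
          · rw [if_neg (by omega), if_neg hk]
        rw [h2, sg_zero, if_pos (show a = a ∧ r0 n = r0 n from ⟨rfl, rfl⟩)]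
        split_ifs <;> simp
      · rw [if_neg hab]; simp)

lemma V_at {n : ℕ} (p : I n) (i : ℕ) (hp : lab n p = i + 1) (c : Fin (dm i + 1)) (e : E) :
    (V p i hp c).at e = vf i c e.2 • MA.unit p (r0 n) := rfl

lemma unit_mul_mul' {J : Type} [Fintype J] [DecidableEq J] (x : MA J ℂ) (a p p' b : J) :
    MA.unit a p * x * MA.unit p' b = x.en p p' • MA.unit a b := Run7.h973.AH.unit_mul_mul x a p p' b

/-- `V_c* x V_c = v_c² x_pp e0` -/
lemma V_star_mul_mul {n : ℕ} (p : I n) (i : ℕ) (hp : lab n p = i + 1) (c : Fin (dm i + 1)) (x : A n)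
    (e : E) : (star (V p i hp c) * x * V p i hp c).at e =
      (vf i c e.2 * vf i c e.2 * (x.at e).en p p) • MA.unit (r0 n) (r0 n) := by
  rw [A.at_mul, A.at_mul, A.at_star, V_at, star_smul, MA.star_unit, star_vf, smul_mul_assoc,
    smul_mul_assoc, mul_smul_comm, unit_mul_mul', smul_smul, smul_smul, mul_assoc]

/-- `V_c V_c* = v_c² ep p` -/
lemma V_mul_star {n : ℕ} (p : I n) (i : ℕ) (hp : lab n p = i + 1) (c : Fin (dm i + 1))
    (e : E) : (V p i hp c * star (V p i hp c)).at e =
      (vf i c e.2 * vf i c e.2) • MA.unit p p := by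
  rw [A.at_mul, A.at_star, V_at, star_smul, MA.star_unit, star_vf, smul_mul_smul_comm, MA.unit_mul,
    if_pos rfl]

lemma V_star_mul {n : ℕ} (p : I n) (i : ℕ) (hp : lab n p = i + 1) (c : Fin (dm i + 1))
    (e : E) : (star (V p i hp c) * V p i hp c).at e =
      (vf i c e.2 * vf i c e.2) • MA.unit (r0 n) (r0 n) := by
  rw [A.at_mul, A.at_star, V_at, star_smul, MA.star_unit, star_vf, smul_mul_smul_comm, MA.unit_mul,
    if_pos rfl]

lemma at_sum {n : ℕ} {ι : Type} (s : Finset ι) (x : ι → A n) (e : E) :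
    (∑ i ∈ s, x i).at e = ∑ i ∈ s, (x i).at e := by
  rw [← evA_apply, map_sum]; rfl

lemma ep_at {n : ℕ} (p : I n) (e : E) : (ep p).at e = MA.unit p p := rfl

lemma sum_V_mul_star {n : ℕ} (p : I n) (i : ℕ) (hp : lab n p = i + 1) :
    ∑ c, V p i hp c * star (V p i hp c) = ep p := by
  apply A.ext; intro e
  rw [at_sum, Finset.sum_congr rfl fun c _ => V_mul_star p i hp c e, ← Finset.sum_smul, sum_vf,
    one_smul, ep_at]

lemma sum_V_star_mul {n : ℕ} (p : I n) (i : ℕ) (hp : lab n p = i + 1) :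
    ∑ c, star (V p i hp c) * V p i hp c = e0 n := by
  apply A.ext; intro e
  rw [at_sum, Finset.sum_congr rfl fun c _ => V_star_mul p i hp c e, ← Finset.sum_smul, sum_vf,
    one_smul]
  rfl

lemma sum_ep (n : ℕ) : ∑ p : I n, ep p = 1 := by
  apply A.ext; intro e
  rw [at_sum, A.at_one]
  exact MA.sum_unit

end Run7.h745.RV
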